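import Pool.Agent.Run7.h52.AsmB2

set_option autoImplicit false

namespace Pool.Agent.Results.MP_68a45e_nt.LimitOfSquareWeights

open Run7.h52.SW

theorem result : ∀ ε : ℝ, 0 < ε → ∀ B : ℝ, 0 ≤ B → ∃ T : ℝ, ∀ (X : ℝ) (H : Finset ℤ), T ≤ X →
    2 ≤ H.card → T * H.card * Real.log (Real.log X) ≤ Real.log X →
    (∀ h ∈ H, |(h : ℝ)| ≤ X ^ B) →
    ∀ (P : Finset ℕ) (M : ℕ), 0 < M → (∀ p ∈ P, p.Prime ∧ p ∣ M) →
    ∀ w : ℤ → ℝ, SquareWeight X M w →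
    ∑ n ∈ Finset.range M, w n * ((survivors P H n).card : ℝ)
      ≤ (1 + ε) * (H.card * Real.log H.card / (H.card - 1)) * (Real.log X / 2) *
        (∏ p ∈ P, (1 - 1 / (p : ℝ))) * ∑ n ∈ Finset.range M, w n :=
  Run7.h52.AsmB.mainB

end Pool.Agent.Results.MP_68a45e_nt.LimitOfSquareWeights
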